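import Pool.Agent.Y285.PF.NotP
import Pool.Agent.Y285.PF.Approx

/-!
# The non-realisable functions are dense among the candidates for pressure functions

For every Anosov automorphism `L` of the two-torus, every function `p₀` satisfying all the stated
conditions (for example the pressure function of the geometric potential of a smooth area-preserving
Anosov diffeomorphism which is not `C^∞` conjugate to `L`) is a limit, locally uniformly with all
derivatives, of functions satisfying all the stated conditions which are not the pressure function
of the geometric potential of any smooth area-preserving Anosov diffeomorphism homotopic to `L`.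

Let `a t + b` be the asymptote of `p₀` at `+∞` and `0 < c < - a`. The new function is the normalised
soft maximum of `p₀` and the line `- c t`,
`p t = h / r 0 * (r t - r 1 * t)`, `r t = R (- (p₀ t + c * t) / e)`, with
`R x = log (1 + exp (- x - exp x))`. It approaches its asymptote at `+∞` faster than every
exponential, and this is impossible for a pressure function, as the system contains horseshoes
of all small entropies near every orbit segment.
-/

set_option autoImplicit false

open scoped Topology
open Set Filter MeasureTheory

namespace Pool.Agent.Results.MP_80da8f_an.NonrealisableDense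

open Pool.Agent.H576R3 Pool.Agent.H576R3.PR

/-- The two-torus carries Anosov automorphisms `L`. For each of them there are functions satisfying
all the stated conditions, and every such function can be approximated, together with its
derivatives up to any order `K`, uniformly on every interval `[-T, T]`, by functions satisfying all
the stated conditions which are not the pressure function of the geometric potential of any smooth
area-preserving Anosov diffeomorphism homotopic to `L`. -/
theorem result : (∃ L l, IsHyperbolicMatrix L l) ∧
    ∀ L l, IsHyperbolicMatrix L l → (∃ p : ℝ → ℝ, IsCandidate (Real.log ‖l‖) p) ∧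
      ∀ p₀ : ℝ → ℝ, IsCandidate (Real.log ‖l‖) p₀ → ∀ (T : ℝ) (K : ℕ) (ε : ℝ), 0 < ε →
        ∃ p : ℝ → ℝ, IsCandidate (Real.log ‖l‖) p ∧
          (∀ k ≤ K, ∀ t : ℝ, |t| ≤ T → |iteratedDeriv k (fun s => p s - p₀ s) t| < ε) ∧
          ∀ (f : Torus ≃ₜ Torus) (F : Plane → Plane) (P : Plane → Plane →L[ℝ] Plane),
            IsAreaPreservingAnosov L f F P →
            ¬ ∀ t : ℝ, pressure f (geometricPotential F P t) = ((p t : ℝ) : EReal) := by
  refine ⟨⟨_, Pool.Agent.Y285.PF.isHyperbolicMatrix_cat⟩, ?_⟩
  intro L l hL
  have hh : 0 < Real.log ‖l‖ := Real.log_pos hL.one_lt
  refine ⟨⟨_, isCandidate_cand hh⟩, ?_⟩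
  intro p₀ hp₀ T K ε hε
  obtain ⟨p, ρ, c, h1, h2, h3, h4, h5, h6⟩ := Pool.Agent.Y285.PF.approx hh hp₀ T K hε
  exact ⟨p, h1, h6, fun f F P H =>
    Pool.Agent.Y285.PF.not_pressure hh H h2 h1.zero h3 h4 h5⟩

end Pool.Agent.Results.MP_80da8f_an.NonrealisableDense
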